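import Pool.Agent.Y207.GR.Rea

/-!
# Gradings of the infinite dimensional Grassmann algebra by elementary abelian `2`-groups

Let `F` be a field of characteristic different from `2`, let `L` be an `F`-vector space with a
basis `b 0, b 1, …` and let `E = ExteriorAlgebra F L` be its Grassmann algebra.  Let `G` be a finite
elementary abelian `2`-group, for instance `ℤ/2`.

* Every `G`-grading of `E` is isomorphic to a homogeneous `G`-grading (every generator lies in one
  of the components).
* Two homogeneous `G`-gradings are isomorphic if and only if for every `g` they have the same number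
  (possibly infinite) of generators of degree `g`.
* The degrees of the generators of a homogeneous `G`-grading can be prescribed arbitrarily.

For `G = ℤ/2` the first part is the question of the problem.  Together the three parts are the
classification of all `G`-gradings of `E` up to isomorphism: the classes correspond to the families
of numbers `m g` in `{0, 1, 2, …, ∞}` with infinite sum.
-/

set_option autoImplicit false

universe u v w

namespace Pool.Agent.Results.MP_7c306c_al.ElementaryAbelianGradings

variable {F : Type u} [Field F] {L : Type v} [AddCommGroup L] [Module F L]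
  {G : Type w} [AddCommGroup G] [DecidableEq G]

/-- The subspaces `A g` of the Grassmann algebra of `L` form a `G`-grading. -/
def IsGrading (A : G → Submodule F (ExteriorAlgebra F L)) : Prop :=
  DirectSum.IsInternal A ∧ ∀ g h : G, ∀ x ∈ A g, ∀ y ∈ A h, x * y ∈ A (g + h)

/-- The grading is homogeneous: every generator `b n` lies in one of the components. -/
def Homogeneous (b : Module.Basis ℕ F L) (A : G → Submodule F (ExteriorAlgebra F L)) : Prop :=
  ∀ n : ℕ, ∃ g, ExteriorAlgebra.ι F (b n) ∈ A g

/-- The gradings are isomorphic: an algebra automorphism maps `A g` onto `B g` for all `g`. -/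
def Isomorphic (A B : G → Submodule F (ExteriorAlgebra F L)) : Prop :=
  ∃ f : ExteriorAlgebra F L ≃ₐ[F] ExteriorAlgebra F L,
    ∀ (g : G) (x : ExteriorAlgebra F L), x ∈ A g ↔ f x ∈ B g

/-- The number of generators of degree `g`. -/
noncomputable def generators (b : Module.Basis ℕ F L) (A : G → Submodule F (ExteriorAlgebra F L))
    (g : G) : Cardinal := Cardinal.mk {n : ℕ // ExteriorAlgebra.ι F (b n) ∈ A g}

theorem result (hF : ringChar F ≠ 2) (b : Module.Basis ℕ F L) [Finite G]
    (hG : ∀ g : G, g + g = 0) :
    (∀ A : G → Submodule F (ExteriorAlgebra F L), IsGrading A →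
      ∃ B : G → Submodule F (ExteriorAlgebra F L),
        IsGrading B ∧ Homogeneous b B ∧ Isomorphic A B) ∧
    (∀ A B : G → Submodule F (ExteriorAlgebra F L), IsGrading A → IsGrading B →
      Homogeneous b A → Homogeneous b B →
      (Isomorphic A B ↔ ∀ g, generators b A g = generators b B g)) ∧
    ∀ c : ℕ → G, ∃ B : G → Submodule F (ExteriorAlgebra F L),
      IsGrading B ∧ ∀ n, ExteriorAlgebra.ι F (b n) ∈ B (c n) := by
  classical
  have h2 : (2 : F) ≠ 0 := Ring.two_ne_zero hF
  refine ⟨fun A hA => ?_, fun A B hA hB hAh hBh => ⟨?_, ?_⟩, fun c => ?_⟩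
  · obtain ⟨Θ, hΘ⟩ := Pool.Agent.Y207.GR.grading h2 b hG A hA.1 hA.2
    refine ⟨fun g => (A g).map Θ.symm.toLinearEquiv.toLinearMap,
      ⟨Pool.Agent.Y207.GR.isInternal_map hA.1 Θ.symm.toLinearEquiv, ?_⟩, ?_, Θ.symm, ?_⟩
    · rintro i j _ ⟨x, hx, rfl⟩ _ ⟨y, hy, rfl⟩
      refine ⟨x * y, hA.2 i j x hx y hy, ?_⟩
      exact map_mul Θ.symm x y
    · intro n
      obtain ⟨g, hg⟩ := hΘ n
      exact ⟨g, Θ (ExteriorAlgebra.ι F (b n)), hg, Θ.symm_apply_apply _⟩
    · intro i x
      constructor
      · intro hx
        exact ⟨x, hx, rfl⟩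
      · rintro ⟨y, hy, hyx⟩
        have : y = x := Θ.symm.injective hyx
        rw [← this]; exact hy
  · rintro ⟨f, hf⟩ g
    apply le_antisymm
    · exact Pool.Agent.Y207.GR.card_le b hB.1 hB.2 hBh h2 hG f fun x hx => (hf g x).1 hx
    · exact Pool.Agent.Y207.GR.card_le b hA.1 hA.2 hAh h2 hG f.symm fun x hx =>
        (hf g _).2 (by rw [AlgEquiv.apply_symm_apply]; exact hx)
  · intro hc
    exact Pool.Agent.Y207.GR.iso_of_card b hA.1 hA.2 hAh h2 hG hB.1 hB.2 hBh hc
  · obtain ⟨B, h1, h3, h4⟩ := Pool.Agent.Y207.GR.realize h2 b hG c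
    exact ⟨B, ⟨h1, h3⟩, h4⟩

end Pool.Agent.Results.MP_7c306c_al.ElementaryAbelianGradings
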