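import Mathlib
import Pool.Agent.Y325.GR.Main
import Pool.Agent.Y900.GR.Lin
import Pool.Agent.Y420.GR.Step
import Pool.Agent.Y994.GR.Act
import Pool.Agent.Y528.GR.Grad

/-!
# Gradings of the infinite dimensional Grassmann algebra by finite abelian 2-groups

Let `F` be a field of characteristic different from `2`, let `L` be an `F`-vector space with a
basis `b 0, b 1, …` and let `E = ExteriorAlgebra F L` be its Grassmann algebra.  Let `G` be a
finite abelian group with `2 ^ r • g = 0` for all `g`, where `r ≤ 1` (so `G` is any elementary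
abelian 2-group, in particular `ℤ/2`) or `F` contains a primitive `2 ^ r`-th root of unity.  For
every `G`-grading `E = ⨁ A g` there is a homogeneous `G`-grading `E = ⨁ B g` (every generator
`b n` lies in some `B g`) and an algebra automorphism of `E` mapping `A g` onto `B g` for all `g`.
-/

set_option autoImplicit false

universe u v w

open Pool.Agent.H89R3.Gr in
theorem Pool.Agent.Results.MP_7c306c_al.TwoGroupGradings.result
    (F : Type u) [Field F] (hF : ringChar F ≠ 2)
    (L : Type v) [AddCommGroup L] [Module F L] (b : Module.Basis ℕ F L)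
    (G : Type w) [AddCommGroup G] [Finite G] [DecidableEq G]
    (r : ℕ) (hG : ∀ g : G, (2 ^ r) • g = 0)
    (hr : r ≤ 1 ∨ ∃ ζ : F, IsPrimitiveRoot ζ (2 ^ r))
    (A : G → Submodule F (ExteriorAlgebra F L)) (hA : DirectSum.IsInternal A)
    (hmul : ∀ i j : G, ∀ x ∈ A i, ∀ y ∈ A j, x * y ∈ A (i + j)) :
    ∃ B : G → Submodule F (ExteriorAlgebra F L),
      DirectSum.IsInternal B ∧
      (∀ i j : G, ∀ x ∈ B i, ∀ y ∈ B j, x * y ∈ B (i + j)) ∧
      (∀ n : ℕ, ∃ g : G, ExteriorAlgebra.ι F (b n) ∈ B g) ∧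
      ∃ f : ExteriorAlgebra F L ≃ₐ[F] ExteriorAlgebra F L,
        ∀ (g : G) (x : ExteriorAlgebra F L), x ∈ A g ↔ f x ∈ B g := by
  have h2 : (2:F) ≠ 0 := Ring.two_ne_zero hF
  have hζ : ∃ ζ : F, IsPrimitiveRoot ζ (2 ^ r) := by
    rcases hr with hr | hr
    · interval_cases r
      · exact ⟨1, by simp⟩
      · exact ⟨-1, by
          rw [pow_one]
          exact IsPrimitiveRoot.neg_one (ringChar F) hF⟩
    · exact hr
  obtain ⟨ζ, hζ⟩ := hζ
  exact Pool.Agent.Y528.GR.t_GRAD F h2
    (Pool.Agent.Y994.GR.t_ACT F h2 (Pool.Agent.Y420.GR.t_STEP F h2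
      (Pool.Agent.Y900.GR.t_LIN h2 (Pool.Agent.Y325.GR.t_MAIN h2))))
    L b G r hG ζ hζ A hA hmul
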